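import Pool.Agent.helper67BR.Main

/-!
# Unramified Brauer classes of order three on cubic surface bundles in arbitrary characteristic

`HasClassThree C F` (library module `Pool.Graph.R_seed8.Y16.BR.St`): `F = 0` is a smooth cubic
surface over `C(t)`, its affine part `x₃ = 1` is integral, and the unramified Brauer group over `C`
of its function field `K` has an element of order three: a central simple `K`-algebra `A`, not
split, with `A ⊗ A ⊗ A` split, which is the generic fibre of an Azumaya algebra over each discrete
valuation ring of `K` that contains `C`.
-/

set_option autoImplicit false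

namespace Pool.Agent.Results.MP_1932ef_ag.EveryCharacteristic

open Pool.Agent.Y16.BR

/-- (1) The answer to Q1: such a surface exists over `ℂ(t)`.
(2) Such a surface exists over `C(t)` for every algebraically closed field `C` of characteristic
different from three which has an element of infinite multiplicative order (that is, which is not
algebraic over a finite field).
(3) In characteristic `p ≠ 3`, for every `s` in `C` transcendental over the prime field, the surface
`t (t - 1 + s t³) (x₀³ + t x₁³) + x₂³ + x₃³ = 0` is one.
(4) In all characteristics different from three: the surface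
`t b(t) (x₀³ + t x₁³) + x₂³ + x₃³ = 0` is one whenever `b` has coefficients in a valuation ring of
`C` in which `3` is a unit, its degree is divisible by three and it is congruent to `t - 1` modulo
the maximal ideal. -/
theorem result :
    (∃ F : MvPolynomial (Fin 4) (RatFunc ℂ), HasClassThree ℂ F) ∧
    (∀ (C : Type) [Field C] [IsAlgClosed C], (3 : C) ≠ 0 →
      (∃ s : C, s ≠ 0 ∧ ∀ n : ℕ, 0 < n → s ^ n ≠ 1) →
        ∃ F : MvPolynomial (Fin 4) (RatFunc C), HasClassThree C F) ∧
    (∀ (p : ℕ) [Fact p.Prime], p ≠ 3 →
      ∀ (C : Type) [Field C] [IsAlgClosed C] [Algebra (ZMod p) C] (s : C),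
        Transcendental (ZMod p) s →
          HasClassThree C
            (cubic C (Polynomial.X - 1 + Polynomial.C s * Polynomial.X ^ 3))) ∧
    (∀ (C : Type) [Field C] [IsAlgClosed C], (3 : C) ≠ 0 →
      ∀ (V : ValuationSubring C) (b : Polynomial V), GoodVal 3 V b →
        HasClassThree C (cubic C (b.map (algebraMap V C)))) :=
  ⟨⟨_, three_int _ good_three ℂ⟩,
    fun C _ _ h3 hC => Pool.Agent.H67BR.existence C h3 hC,
    fun p _ hp3 C _ _ _ s hs => Pool.Agent.H67BR.transcendental_parameter C p hp3 s hs,
    fun C _ _ h3 V b hb => Pool.Agent.H67BR.family C h3 V b hb⟩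

end Pool.Agent.Results.MP_1932ef_ag.EveryCharacteristic
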